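import Pool.Agent.W2helper21.FRO.Poly

/-!
# Hitting sets for functions of constant-width read-once branching programs

A read-once oblivious algebraic branching program (ROABP) of width `w` computes
`u · M_1(x_{σ(1)}) ⋯ M_n(x_{σ(n)}) · v`, where the `M_l` are `w × w` matrices of univariate
polynomials and `σ` is the variable order.

For all numbers `w` and `T` we give an explicit set `hitSet w T n D` of at most
`(n D + 1) ^ (2 q)` integer points, where `q = numSeeds w T` depends on `w` and `T` only, which
hits every nonzero polynomial of total degree at most `D` in `n` variables of the form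
`Ψ (F_1, …, F_s)`, where `F_1, …, F_s` are computed by ROABPs of width `w`, each reading the
variables in its own unknown order, at most `T` of them are algebraically independent, and `Ψ` is
an arbitrary polynomial (of any degree, with any number of monomials), and more generally every
nonzero product of such polynomials.  The points are those of the generator of Shpilka and
Volkovich with `numSeeds w T` copies.

The proof (see `Pool/Agent/W2helper21/FRO`, which uses `Pool/Agent/W2helper94/PIT`): by the
theorem of helper94 on chains of matrices a base point with few modified coordinates can be chosen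
at which all products of consecutive matrices of the programs have maximal rank.  Suppose that
`Ψ (F_1, …, F_T)` vanishes whenever boundedly many coordinates of such a base point are modified,
but is nonzero at some point.  By the theorem of Erdos and Szekeres one finds many coordinates
which all the programs read in the same order, up to reversal.  Restricted to these coordinates
all the programs are chains of matrices with ranks that are already attained at the base point,
and the minors of their Jacobian are functionals of chains of block diagonal tensor products, to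
which the theorem on chains applies again; this bounds the number of modifications needed by
induction on the number of programs.
-/

namespace Pool.Agent.Results.MP_e2be99_lc.FunctionsOfROABPs

open MvPolynomial
open Pool.Agent.W2helper21.FRO (genPoly genPoly_degree totalDegree_bind eval_genPoly)

/-- `p` is computed by a read-once oblivious algebraic branching program of width `w`, reading the
variables in some order `σ`. -/
def ComputedByROABP {K : Type*} [Field K] {n : ℕ} (w : ℕ) (p : MvPolynomial (Fin n) K) : Prop :=
  ∃ (σ : Equiv.Perm (Fin n)) (M : Fin n → Matrix (Fin w) (Fin w) (Polynomial K))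
    (u v : Fin w → K),
    p = ∑ a, ∑ b, C (u a) * (List.ofFn fun l : Fin n =>
      (M l).map (Polynomial.aeval (X (σ l) : MvPolynomial (Fin n) K))).prod a b * C (v b)

/-- At most `T` of the polynomials `p_i` are algebraically independent. -/
def TrdegLE {K : Type*} [Field K] {n s : ℕ} (T : ℕ) (p : Fin s → MvPolynomial (Fin n) K) : Prop :=
  ∀ I : Finset (Fin s), AlgebraicIndependent K (fun i : I => p i) → I.card ≤ T

/-- the number of copies of the basic generator for functions of ROABPs of width `w` with
transcendence degree at most `T` -/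
def numSeeds (w T : ℕ) : ℕ :=
  w * ((w ^ w + 1) ^ w * 2) +
    (T + (T + 1) * (((w * T) ^ T * T.factorial + 1) ^ (w * T) * 2) + 1) ^ 2 ^ T

/-- the points of the generator: `h_i = ∑_c y_c ∏_{j ≠ i} (z_c - j)` -/
def genPoint (n q : ℕ) (s : Fin q ⊕ Fin q → ℤ) (i : Fin n) : ℤ :=
  ∑ c, s (Sum.inl c) * ∏ j ∈ Finset.univ.erase i, (s (Sum.inr c) - ((j : ℕ) : ℤ))

/-- the hitting set: all seeds run through `{0, …, n D}` -/
def hitSet (w T n D : ℕ) : Finset (Fin n → ℤ) :=
  (Finset.univ : Finset (Fin (numSeeds w T) ⊕ Fin (numSeeds w T) → Fin (n * D + 1))).image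
    fun s => genPoint n (numSeeds w T) fun t => ((s t : ℕ) : ℤ)

theorem card_hitSet (w T n D : ℕ) :
    (hitSet w T n D).card ≤ (n * D + 1) ^ (2 * numSeeds w T) := by
  unfold hitSet
  refine Finset.card_image_le.trans ?_
  rw [Finset.card_univ, Fintype.card_fun, Fintype.card_sum, Fintype.card_fin, Fintype.card_fin,
    two_mul]

theorem size_hitSet (w T n D : ℕ) : ∀ h ∈ hitSet w T n D, ∀ i,
    |h i| ≤ numSeeds w T * (n * D) * (n * D + n) ^ (n - 1) := by
  intro h hh i
  unfold hitSet at hh
  rw [Finset.mem_image] at hh
  obtain ⟨s, _, rfl⟩ := hh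
  unfold genPoint
  refine (Finset.abs_sum_le_sum_abs _ _).trans ?_
  have hs : ∀ c, (0 : ℤ) ≤ ((s c : ℕ) : ℤ) ∧ ((s c : ℕ) : ℤ) ≤ n * D := by
    intro c
    have := (s c).2
    refine ⟨by positivity, ?_⟩
    exact_mod_cast Nat.lt_succ_iff.mp this
  have hb : ∀ t ∈ (Finset.univ : Finset (Fin (numSeeds w T))),
      |((s (Sum.inl t) : ℕ) : ℤ) * ∏ j ∈ Finset.univ.erase i, (((s (Sum.inr t) : ℕ) : ℤ)
        - (((j : Fin n) : ℕ) : ℤ))| ≤ (n * D) * (n * D + n) ^ (n - 1) := by
    intro t _
    rw [abs_mul, Finset.abs_prod]
    apply mul_le_mul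
    · rw [abs_of_nonneg (hs _).1]
      exact (hs _).2
    · have : ∏ j ∈ Finset.univ.erase i, |((s (Sum.inr t) : ℕ) : ℤ) - (((j : Fin n) : ℕ) : ℤ)|
          ≤ ∏ _j ∈ Finset.univ.erase i, ((n : ℤ) * D + n) := by
        apply Finset.prod_le_prod
        · intro j _
          positivity
        · intro j _
          have h1 := hs (Sum.inr t)
          have h2 : (((j : Fin n) : ℕ) : ℤ) ≤ n := by exact_mod_cast j.2.le
          have h3 : (0 : ℤ) ≤ (((j : Fin n) : ℕ) : ℤ) := by positivity
          rw [abs_le]
          constructor <;> linarith [h1.1, h1.2]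
      refine this.trans (le_of_eq ?_)
      rw [Finset.prod_const, Finset.card_erase_of_mem (Finset.mem_univ i), Finset.card_univ,
        Fintype.card_fin]
    · positivity
    · positivity
  refine (Finset.sum_le_card_nsmul _ _ _ hb).trans (le_of_eq ?_)
  rw [Finset.card_univ, Fintype.card_fin, nsmul_eq_mul]
  ring

/-- **Polynomial identity testing for functions of read-once oblivious algebraic branching
programs of constant width and bounded transcendence degree, each in its own unknown variable
order.** -/
theorem result.{u} (w T n D : ℕ) :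
    (hitSet w T n D).card ≤ (n * D + 1) ^ (2 * numSeeds w T) ∧
    (∀ h ∈ hitSet w T n D, ∀ i, |h i| ≤ numSeeds w T * (n * D) * (n * D + n) ^ (n - 1)) ∧
    ∀ (K : Type u) [Field K] [CharZero K] (r : ℕ) (s : Fin r → ℕ)
      (p : ∀ k, Fin (s k) → MvPolynomial (Fin n) K) (Ψ : ∀ k, MvPolynomial (Fin (s k)) K),
      (∀ k i, ComputedByROABP w (p k i)) → (∀ k, TrdegLE T (p k)) →
        (∏ k, bind₁ (p k) (Ψ k)).totalDegree ≤ D → (∏ k, bind₁ (p k) (Ψ k)) ≠ 0 →
        ∃ h ∈ hitSet w T n D, eval (fun i => (h i : K)) (∏ k, bind₁ (p k) (Ψ k)) ≠ 0 := by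
  refine ⟨card_hitSet w T n D, size_hitSet w T n D, ?_⟩
  intro K _ _ r s p Ψ hp hT hdeg hne
  classical
  have h1 : bind₁ (genPoly K n (numSeeds w T)) (∏ k, bind₁ (p k) (Ψ k)) ≠ 0 := by
    rw [map_prod, Finset.prod_ne_zero_iff]
    intro k _
    exact Pool.Agent.W2helper21.FRO.bind_ne_zero_trdeg (hp k) (hT k) (Ψ k)
      ((Finset.prod_ne_zero_iff.mp hne) k (Finset.mem_univ k))
  have hdeg' : (bind₁ (genPoly K n (numSeeds w T)) (∏ k, bind₁ (p k) (Ψ k))).totalDegree ≤
      n * D :=
    (totalDegree_bind _ n (fun i => genPoly_degree n _ i) _).trans (Nat.mul_le_mul_left n hdeg)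
  by_contra hcon
  push Not at hcon
  apply h1
  let S : Finset K := (Finset.range (n * D + 1)).image (fun t : ℕ => (t : K))
  have hS : S.card = n * D + 1 := by
    rw [Finset.card_image_of_injective _ Nat.cast_injective, Finset.card_range]
  apply eq_zero_of_eval_zero_at_prod_finset _ (fun _ => S)
  · intro i
    rw [hS]
    exact Nat.lt_succ_of_le ((degreeOf_le_totalDegree _ _).trans hdeg')
  · intro x hx
    have hx' : ∀ t, ∃ t' : Fin (n * D + 1), x t = ((t' : ℕ) : K) := by
      intro t
      obtain ⟨t', ht, h⟩ := Finset.mem_image.mp (hx t)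
      exact ⟨⟨t', Finset.mem_range.mp ht⟩, h.symm⟩
    choose t ht using hx'
    rw [eval_genPoly]
    have := hcon (genPoint n (numSeeds w T) fun c => ((t c : ℕ) : ℤ)) (by
      unfold hitSet
      exact Finset.mem_image.mpr ⟨t, Finset.mem_univ _, rfl⟩)
    rw [← this]
    congr 2
    funext i
    unfold genPoint
    push_cast
    simp only [ht]

end Pool.Agent.Results.MP_e2be99_lc.FunctionsOfROABPs
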